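import Mathlib

/-!
# Curves, actions, trapping data: internal definitions of the project AUB
-/

set_option autoImplicit false

open MeasureTheory
open scoped RealInnerProductSpace

namespace Pool.Agent.H33.AM

variable {n : ℕ}

/-- The integer vector `k` as an element of `ℝⁿ`. -/
noncomputable def zv (k : Fin n → ℤ) : EuclideanSpace ℝ (Fin n) :=
  WithLp.toLp 2 fun i => (k i : ℝ)

/-- The integer `k · l`. -/
def dot (k l : Fin n → ℤ) : ℤ := ∑ i, k i * l i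

/-- Hypotheses on the kinetic energy `K`, with `D = ∇K`. -/
structure HK (K : EuclideanSpace ℝ (Fin n) → ℝ)
    (D : EuclideanSpace ℝ (Fin n) → EuclideanSpace ℝ (Fin n)) (κ₁ κ₂ : ℝ) : Prop where
  pos : 0 < κ₁
  pos₂ : 0 < κ₂
  lo : ∀ v w, κ₁ / 2 * ‖w - v‖ ^ 2 ≤ K w - K v - ⟪D v, w - v⟫
  hi : ∀ v w, K w - K v - ⟪D v, w - v⟫ ≤ κ₂ / 2 * ‖w - v‖ ^ 2

/-- Hypotheses on the potential `V`, with `F = ∇V`. -/
structure HV (V : EuclideanSpace ℝ (Fin n) → ℝ)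
    (F : EuclideanSpace ℝ (Fin n) → EuclideanSpace ℝ (Fin n)) (B : ℝ) : Prop where
  nonneg : 0 ≤ B
  der : ∀ x, HasGradientAt V (F x) x
  per : ∀ x (k : Fin n → ℤ), V (x + zv k) = V x
  bd : ∀ x, |V x| ≤ B
  bdF : ∀ x, ‖F x‖ ≤ B
  lip : ∀ x y, ‖F x - F y‖ ≤ B * ‖x - y‖

/-- Hypotheses on the magnetic potential `A`, with derivative `A'`. -/
structure HA (A : EuclideanSpace ℝ (Fin n) → EuclideanSpace ℝ (Fin n))
    (A' : EuclideanSpace ℝ (Fin n) → EuclideanSpace ℝ (Fin n) →L[ℝ] EuclideanSpace ℝ (Fin n))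
    (B : ℝ) : Prop where
  nonneg : 0 ≤ B
  der : ∀ x, HasFDerivAt A (A' x) x
  per : ∀ x (k : Fin n → ℤ), A (x + zv k) = A x
  bd : ∀ x, ‖A x‖ ≤ B
  bdA : ∀ x, ‖A' x‖ ≤ B
  lip : ∀ x y, ‖A' x - A' y‖ ≤ B * ‖x - y‖

/-- The Lagrangian `L(x, v) = K(v) + A(x) · v - V(x)`. -/
noncomputable def lag (K : EuclideanSpace ℝ (Fin n) → ℝ)
    (A : EuclideanSpace ℝ (Fin n) → EuclideanSpace ℝ (Fin n)) (V : EuclideanSpace ℝ (Fin n) → ℝ)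
    (x v : EuclideanSpace ℝ (Fin n)) : ℝ :=
  K v + ⟪A x, v⟫ - V x

/-- `x` is a curve on `[a, b]` with the velocity `u`. -/
structure Adm (a b : ℝ) (x u : ℝ → EuclideanSpace ℝ (Fin n)) : Prop where
  le : a ≤ b
  cont : ContinuousOn x (Set.Icc a b)
  der : ∃ s : Set ℝ, s.Countable ∧ ∀ t ∈ Set.Ioo a b \ s, HasDerivAt x (u t) t
  meas : Measurable u
  bd : ∃ R : ℝ, ∀ t, ‖u t‖ ≤ R

/-- The action of a curve with respect to `ℓ + e`. -/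
noncomputable def act (l : EuclideanSpace ℝ (Fin n) → EuclideanSpace ℝ (Fin n) → ℝ) (e a b : ℝ)
    (x u : ℝ → EuclideanSpace ℝ (Fin n)) : ℝ :=
  ∫ t in a..b, (l (x t) (u t) + e)

/-- There is a curve from `x` to `y`, on `[0, T]`, with the action `r` with respect to `ℓ + e`. -/
def Conn (l : EuclideanSpace ℝ (Fin n) → EuclideanSpace ℝ (Fin n) → ℝ) (e T : ℝ)
    (x y : EuclideanSpace ℝ (Fin n)) (r : ℝ) : Prop :=
  ∃ ξ u : ℝ → EuclideanSpace ℝ (Fin n), Adm 0 T ξ u ∧ ξ 0 = x ∧ ξ T = y ∧ act l e 0 T ξ u = r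

/-- Hypotheses on a Lagrangian `ℓ(x, v)`. -/
structure HL (l : EuclideanSpace ℝ (Fin n) → EuclideanSpace ℝ (Fin n) → ℝ) : Prop where
  cont : Continuous fun p : EuclideanSpace ℝ (Fin n) × EuclideanSpace ℝ (Fin n) => l p.1 p.2
  per : ∀ x v (k : Fin n → ℤ), l (x + zv k) v = l x v

/-- All curves which are closed modulo the integer vectors `k` with `k₀ · k = 0` have a nonnegative
action with respect to `ℓ + e`. -/
def Crit (l : EuclideanSpace ℝ (Fin n) → EuclideanSpace ℝ (Fin n) → ℝ) (k₀ : Fin n → ℤ)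
    (e : ℝ) : Prop :=
  ∀ (T : ℝ) (x : EuclideanSpace ℝ (Fin n)) (k : Fin n → ℤ) (r : ℝ), dot k₀ k = 0 →
    Conn l e T x (x + zv k) r → 0 ≤ r

/-- The trapping data: `ℓ(x, v)` is close, in the sense of the average along curves, to
`κ |v - q|² / 2 - w(k₀ · x)`, `q = s P`, `k₀ · P = 0`. -/
structure Trap (l : EuclideanSpace ℝ (Fin n) → EuclideanSpace ℝ (Fin n) → ℝ)
    (k₀ m P : Fin n → ℤ) (s : ℝ) (w : ℝ → ℝ) (κ₁ κ₂ ε β₀ β₁ M : ℝ) : Prop where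
  hl : HL l
  km : dot k₀ m = 1
  kP : dot k₀ P = 0
  s_pos : 0 < s
  w_cont : Continuous w
  w_per : ∀ θ, w (θ + 1) = w θ
  w_le : ∀ θ, w θ ≤ M
  w_max : ∃ θ, w θ = M
  κ₁_pos : 0 < κ₁
  κ₂_pos : 0 < κ₂
  ε_nonneg : 0 ≤ ε
  β₀_nonneg : 0 ≤ β₀
  β₁_nonneg : 0 ≤ β₁
  lo : ∀ (a b : ℝ) (x u : ℝ → EuclideanSpace ℝ (Fin n)), Adm a b x u →
    (∫ t in a..b, (κ₁ / 2 * ‖u t - s • zv P‖ ^ 2 - w ⟪zv k₀, x t⟫)) - ε * (b - a) - β₀
      - β₁ * (∫ t in a..b, ‖u t - s • zv P‖) ≤ ∫ t in a..b, l (x t) (u t)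
  hi : ∀ (a b : ℝ) (x u : ℝ → EuclideanSpace ℝ (Fin n)), Adm a b x u →
    (∫ t in a..b, l (x t) (u t)) ≤
      (∫ t in a..b, (κ₂ / 2 * ‖u t - s • zv P‖ ^ 2 - w ⟪zv k₀, x t⟫)) + ε * (b - a) + β₀
        + β₁ * (∫ t in a..b, ‖u t - s • zv P‖)

/-- Points of the level `k₀ · x = θ₀` can be connected at a cost at most `κ` (modulo `k₀ · k = 0`). -/
def Closes (l : EuclideanSpace ℝ (Fin n) → EuclideanSpace ℝ (Fin n) → ℝ) (k₀ : Fin n → ℤ)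
    (e κ θ₀ : ℝ) : Prop :=
  ∀ x y : EuclideanSpace ℝ (Fin n), ⟪zv k₀, x⟫ = θ₀ → ⟪zv k₀, y⟫ = θ₀ →
    ∃ (T : ℝ) (k : Fin n → ℤ) (r : ℝ), dot k₀ k = 0 ∧ Conn l e T x (y + zv k) r ∧ r ≤ κ

/-- Points of levels at distance at most one can be connected at a cost at most `C₁`. -/
def Rough (l : EuclideanSpace ℝ (Fin n) → EuclideanSpace ℝ (Fin n) → ℝ) (k₀ : Fin n → ℤ)
    (e C₁ : ℝ) : Prop :=
  ∀ x y : EuclideanSpace ℝ (Fin n), |⟪zv k₀, y⟫ - ⟪zv k₀, x⟫| ≤ 1 →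
    ∃ (T : ℝ) (k : Fin n → ℤ) (r : ℝ), dot k₀ k = 0 ∧ Conn l e T x (y + zv k) r ∧ r ≤ C₁

/-- The conclusion of the trapping lemma. -/
def Trapped (l : EuclideanSpace ℝ (Fin n) → EuclideanSpace ℝ (Fin n) → ℝ) (k₀ : Fin n → ℤ) : Prop :=
  ∃ e fu fd C : ℝ, -fd < fu ∧ Crit l k₀ e ∧ (∀ e' < e, ¬ Crit l k₀ e') ∧
    ∀ η ∈ Set.Icc (-fd) fu, ∀ (T : ℝ) (x y : EuclideanSpace ℝ (Fin n)) (r : ℝ), Conn l e T x y r →
      η * (⟪zv k₀, y⟫ - ⟪zv k₀, x⟫) - C ≤ r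

/-- The action functional has a flat: the normalised action (critical value `E₀`) is bounded below
for all the cohomology classes `c₀ + η k₀`, `η ∈ [η₁, η₂]`, and `E₀` is the critical value. -/
def Flat (L : EuclideanSpace ℝ (Fin n) → EuclideanSpace ℝ (Fin n) → ℝ) : Prop :=
  ∃ (k₀ : Fin n → ℤ) (c₀ : EuclideanSpace ℝ (Fin n)) (E₀ η₁ η₂ C : ℝ), k₀ ≠ 0 ∧ η₁ < η₂ ∧
    (∀ η ∈ Set.Icc η₁ η₂, ∀ (T : ℝ) (x u : ℝ → EuclideanSpace ℝ (Fin n)), Adm 0 T x u →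
      -C ≤ ∫ t in (0 : ℝ)..T, (L (x t) (u t) - ⟪c₀ + η • zv k₀, u t⟫ + E₀)) ∧
    ∀ E' < E₀, ∃ (T : ℝ) (x u : ℝ → EuclideanSpace ℝ (Fin n)) (k : Fin n → ℤ), 0 < T ∧
      Adm 0 T x u ∧ x T = x 0 + zv k ∧ dot k₀ k = 0 ∧
      (∫ t in (0 : ℝ)..T, (L (x t) (u t) - ⟪c₀, u t⟫ + E')) < 0

/-- The discrete action, `v_i = (x_{i + 1} - x_i) / τ`. -/
noncomputable def Sd (K : EuclideanSpace ℝ (Fin n) → ℝ)
    (A : EuclideanSpace ℝ (Fin n) → EuclideanSpace ℝ (Fin n)) (V : EuclideanSpace ℝ (Fin n) → ℝ)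
    (τ : ℝ) (N : ℕ) (x : ℤ → EuclideanSpace ℝ (Fin n)) : ℝ :=
  ∑ i ∈ Finset.range N, τ * lag K A V (x i) ((1 / τ) • (x (i + 1) - x i))

/-- Minimisers of the discrete action, `N` steps of length `T / N`, closed modulo `k`. -/
def IsDM (K : EuclideanSpace ℝ (Fin n) → ℝ)
    (A : EuclideanSpace ℝ (Fin n) → EuclideanSpace ℝ (Fin n)) (V : EuclideanSpace ℝ (Fin n) → ℝ)
    (T : ℝ) (N : ℕ) (k : Fin n → ℤ) (x : ℤ → EuclideanSpace ℝ (Fin n)) : Prop :=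
  (∀ i, x (i + N) = x i + zv k) ∧
    ∀ y : ℤ → EuclideanSpace ℝ (Fin n), (∀ i, y (i + N) = y i + zv k) →
      Sd K A V (T / N) N x ≤ Sd K A V (T / N) N y

/-- The Hamiltonian vector field of `K(v) + A(x) · v - V(x)` in the coordinates `(x, p)`,
`p = ∇K(v) + A(x)`, `D' = (∇K)⁻¹`. -/
noncomputable def field
    (A : EuclideanSpace ℝ (Fin n) → EuclideanSpace ℝ (Fin n))
    (A' : EuclideanSpace ℝ (Fin n) → EuclideanSpace ℝ (Fin n) →L[ℝ] EuclideanSpace ℝ (Fin n))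
    (F D' : EuclideanSpace ℝ (Fin n) → EuclideanSpace ℝ (Fin n))
    (z : EuclideanSpace ℝ (Fin n) × EuclideanSpace ℝ (Fin n)) :
    EuclideanSpace ℝ (Fin n) × EuclideanSpace ℝ (Fin n) :=
  (D' (z.2 - A z.1), ContinuousLinearMap.adjoint (A' z.1) (D' (z.2 - A z.1)) - F z.1)

/-- `φ` is the flow of the vector field `Y`. -/
structure IsFlow {W : Type*} [NormedAddCommGroup W] [NormedSpace ℝ W] (Y : W → W)
    (φ : ℝ → W → W) : Prop where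
  zero : ∀ z, φ 0 z = z
  der : ∀ z t, HasDerivAt (fun s => φ s z) (Y (φ t z)) t
  cont : Continuous fun p : ℝ × W => φ p.1 p.2
  uniq : ∀ γ : ℝ → W, (∀ t, HasDerivAt γ (Y (γ t)) t) → ∀ s t, γ (s + t) = φ s (γ t)

/-- Solutions of the Euler-Lagrange equation of `K(v) + A(x) · v - V(x)`. -/
structure Sol (D F A : EuclideanSpace ℝ (Fin n) → EuclideanSpace ℝ (Fin n))
    (A' : EuclideanSpace ℝ (Fin n) → EuclideanSpace ℝ (Fin n) →L[ℝ] EuclideanSpace ℝ (Fin n))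
    (γ v : ℝ → EuclideanSpace ℝ (Fin n)) : Prop where
  cont : Continuous v
  der : ∀ t, HasDerivAt γ (v t) t
  el : ∀ t, HasDerivAt (fun s => D (v s) + A (γ s))
    (ContinuousLinearMap.adjoint (A' (γ t)) (v t) - F (γ t)) t

/-- The average of `g` over the closed line `x + t P`, `t ∈ [0, 1]`. -/
noncomputable def avP (g : EuclideanSpace ℝ (Fin n) → ℝ) (P : Fin n → ℤ)
    (x : EuclideanSpace ℝ (Fin n)) : ℝ :=
  ∫ t in (0 : ℝ)..1, g (x + t • zv P)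

/-- The average of the `ℤⁿ`-periodic function `g` over `{k₀ · x = θ}`, if `k₀ · m = 1`. -/
noncomputable def avK (g : EuclideanSpace ℝ (Fin n) → ℝ) (k₀ m : Fin n → ℤ) (θ : ℝ) : ℝ :=
  ∫ y in {y : EuclideanSpace ℝ (Fin n) | ∀ i, y i ∈ Set.Ico (0 : ℝ) 1},
    g (θ • zv m + y - ⟪zv k₀, y⟫ • zv m)

/-- The integer vector `N ^ n P₀ + z - (k₀ · z) m`, `z = (1, N, …, N ^ (n - 1))`. -/
def PN (k₀ m P₀ : Fin n → ℤ) (N : ℕ) : Fin n → ℤ := fun i =>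
  (N : ℤ) ^ n * P₀ i + (N : ℤ) ^ (i : ℕ) - dot k₀ (fun j => (N : ℤ) ^ (j : ℕ)) * m i

end Pool.Agent.H33.AM
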